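import Pool.Agent.H.MP_cf31f8_lc.C

set_option autoImplicit false

namespace Pool.Agent.Results.MP_cf31f8_lc.Complete

open Pool.Agent.Lib.CX

/-- Three distinct cards whose values in each of the `n` coordinates are all equal or pairwise distinct. -/
def IsSet (n : ℕ) (a b c : List ℕ) : Prop :=
  a ≠ b ∧ a ≠ c ∧ b ≠ c ∧ ∀ i < n, (a.getD i 0 = b.getD i 0 ∧ b.getD i 0 = c.getD i 0) ∨
    (a.getD i 0 ≠ b.getD i 0 ∧ a.getD i 0 ≠ c.getD i 0 ∧ b.getD i 0 ≠ c.getD i 0)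

/-- A move removes three cards of the table that form a Set. -/
def Move (n : ℕ) (T T' : Finset (List ℕ)) : Prop :=
  ∃ a ∈ T, ∃ b ∈ T, ∃ c ∈ T, IsSet n a b c ∧ T' = T \ {a, b, c}

/-- The input: `n ≥ 1` and a list of distinct cards in `{0,1,2}^n`. -/
def Valid (x : ℕ × List (List ℕ)) : Prop :=
  1 ≤ x.1 ∧ x.2.Nodup ∧ ∀ a ∈ x.2, a.length = x.1 ∧ ∀ e ∈ a, e < 3

theorem result : PSPACEComplete fun x : {x // Valid x} => Win (Move x.1.1) x.1.2.toFinset :=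
  H.MP_cf31f8_lc.complete

end Pool.Agent.Results.MP_cf31f8_lc.Complete
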